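import Pool.Agent.L5helper43.KM.Main
import Pool.Agent.R945.KR.Kn

/-!
# Classes of knot types which are closed under connected sums
-/

set_option autoImplicit false

namespace KNM

open Finset Filter Topology KN KNB
open scoped Classical

noncomputable section

/-- a class closed under connected sums contains the sums of its members -/
theorem sums_mem {Q : List Dir → Prop} (hQ : KClass Q) (hc : CSum Q) {k κ : List V}
    {wk w0 : List Dir} (hwk : SAP wk) (hQk : Q wk) (hk : Same (vl wk) k)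
    (hw0 : SAP w0) (hQ0 : Q w0) (h0 : Same (vl w0) κ) :
    ∀ (N : ℕ) (l : List V), SumQ k (fun _ => κ) N l → ∀ w, SAP w → Same (vl w) l → Q w := by
  intro N
  induction N with
  | zero =>
    intro l hl w hw hwl
    have hl2 : Same l k := hl
    exact hQ.same wk w hwk hw (hk.trans (hl2.symm.trans hwl.symm)) hQk
  | succ N ih =>
    intro l hl w hw hwl
    obtain ⟨l1, v, l2, hF, h1, h2, h3⟩ := hl
    have h4 : Q (l1 ++ .zp :: l2) := ih _ h1 _ hF.1 (Same.refl _)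
    have h5 : Q (.zm :: v) := hQ.same w0 _ hw0 hF.2.2.1 (h0.trans h2.symm) hQ0
    have h6 : Q (join l1 v l2) := hc l1 v l2 hF h4 h5
    exact hQ.same _ w (S_glueSAP_proof l1 v l2 hF) hw (hwl.trans h3).symm h6

theorem kt_sub {Q : List Dir → Prop} (hQ : KClass Q) {w0 : List Dir} (hw0 : SAP w0)
    (hQ0 : Q w0) (n : ℕ) : a (KT (vl w0)) n ≤ a Q n := by
  unfold a
  apply Finset.card_le_card
  intro w hw
  obtain ⟨h1, h2, h3⟩ := mem_K.1 hw
  refine mem_K.2 ⟨h1, h2, ?_⟩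
  rcases h3 with h3 | h3
  · exact hQ.same w0 w hw0 h2 h3.symm hQ0
  · refine hQ.rev w0 w hw0 h2 ?_ hQ0
    have h4 := (c_rev _ _).2 h3
    rw [List.reverse_reverse] at h4
    exact h4.symm

/-- exponential lower bound for `t ^ N / N!` with `N` about `t / 3` -/
theorem exp_le (t : ℝ) (ht : 12 ≤ t) : ∃ N : ℕ, ((N + 1 : ℕ) : ℝ) ≤ t ∧
    Real.exp (t / 6) ≤ t ^ (N + 1) / ((N + 1).factorial : ℝ) := by
  obtain ⟨M, hM⟩ : ∃ M, M = ⌊t / 3⌋₊ := ⟨_, rfl⟩
  have h1 : (M : ℝ) ≤ t / 3 := by rw [hM]; exact Nat.floor_le (by linarith)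
  have h2 : t / 3 < M + 1 := by rw [hM]; exact Nat.lt_floor_add_one _
  have h3 : 0 < M := by
    by_contra h
    have : M = 0 := by omega
    rw [this] at h2
    simp at h2
    linarith
  obtain ⟨N, rfl⟩ : ∃ N, M = N + 1 := ⟨M - 1, by omega⟩
  refine ⟨N, by linarith, ?_⟩
  have hM0 : (0 : ℝ) < ((N + 1 : ℕ) : ℝ) := by exact_mod_cast h3
  have h4 : (((N + 1).factorial : ℕ) : ℝ) ≤ ((N + 1 : ℕ) : ℝ) ^ (N + 1) := by
    exact_mod_cast Nat.factorial_le_pow (N + 1)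
  have hf : (0 : ℝ) < ((N + 1).factorial : ℝ) := by exact_mod_cast (N + 1).factorial_pos
  rw [le_div_iff₀ hf]
  have h5 : (Real.exp 1) ^ (N + 1) * ((N + 1 : ℕ) : ℝ) ^ (N + 1) ≤ t ^ (N + 1) := by
    rw [← mul_pow]
    apply pow_le_pow_left₀ (by positivity)
    have h6 := Real.exp_one_lt_d9
    nlinarith
  have h7 : Real.exp (t / 6) ≤ (Real.exp 1) ^ (N + 1) := by
    rw [← Real.exp_nat_mul, mul_one]
    apply Real.exp_le_exp.2
    linarith
  calc Real.exp (t / 6) * ((N + 1).factorial : ℝ)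
      ≤ (Real.exp 1) ^ (N + 1) * ((N + 1 : ℕ) : ℝ) ^ (N + 1) :=
        mul_le_mul h7 h4 hf.le (by positivity)
    _ ≤ _ := h5

/-- the counts of a class closed under connected sums grow by a bounded factor -/
theorem ratio_Q (Q : List Dir → Prop) (hQ : KClass Q) (hne : ∃ w, SAP w ∧ Q w) (hc : CSum Q) :
    ∃ B : ℝ, 1 ≤ B ∧ ∃ i0 : ℕ, ∀ i ≥ i0, (a Q (2 * (i + 1)) : ℝ) ≤ B * a Q (2 * i) := by
  have h1 := (class_sum Q hQ hne hc).2
  rw [GEN.ratio_iff] at h1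
  have h2 : ∀ᶠ j : ℕ in atTop, (a Q (2 * j + 2) : ℝ) / a Q (2 * j) < gr Q ^ 2 + 1 :=
    h1.eventually (gt_mem_nhds (by linarith))
  have h3 : ∀ᶠ j : ℕ in atTop, 0 < (a Q (2 * j) : ℝ) := by
    filter_upwards [class_pos Q hQ hne, eventually_gt_atTop 0] with j h3 hj
      using h3.trans_le (GEN.pn_le_a Q j hj)
  obtain ⟨i0, hi0⟩ := eventually_atTop.1 (h2.and h3)
  refine ⟨gr Q ^ 2 + 1, by nlinarith [sq_nonneg (gr Q)], i0, fun i hi => ?_⟩
  obtain ⟨h4, h5⟩ := hi0 i hi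
  rw [div_lt_iff₀ h5] at h4
  have e : 2 * (i + 1) = 2 * i + 2 := by ring
  rw [e]
  exact h4.le

/-- in a class closed under connected sums a knot type `k` has a small proportion if the class
contains a knot that is a summand of `k` only finitely often -/
theorem class_exp (Q : List Dir → Prop) (hQ : KClass Q) (hc : CSum Q) {k κ : List V}
    {wk w0 : List Dir} (hwk : SAP wk) (hQk : Q wk) (hk : Same (vl wk) k)
    (hw0 : SAP w0) (hQ0 : Q w0) (h0 : Same (vl w0) κ) (hfin : Fin1 k κ) :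
    ∃ c : ℝ, 0 < c ∧ ∀ᶠ j : ℕ in atTop,
      Real.exp (c * (2 * j : ℝ) ^ (2 / 3 : ℝ)) * pq (KT k) (2 * j) ≤ pq Q (2 * j) := by
  obtain ⟨c, M, n0, hc0, H⟩ := main_g k {κ} (by
    intro κ' hκ'
    rw [Finset.mem_singleton] at hκ'
    subst hκ'
    exact ⟨hfin, w0, hw0, h0⟩)
  obtain ⟨B, hB1, i0, hi0⟩ := ratio_Q Q hQ ⟨wk, hwk, hQk⟩ hc
  have hBp : 0 < B := by linarith
  have hBM : 1 ≤ B ^ M := one_le_pow₀ hB1
  have hBM0 : 0 < B ^ M := by linarith
  refine ⟨c / B ^ M / 6, by positivity, ?_⟩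
  have ht : Tendsto (fun j : ℕ => c / B ^ M * (2 * j : ℝ) ^ (2 / 3 : ℝ)) atTop atTop := by
    apply Tendsto.const_mul_atTop (by positivity)
    refine (tendsto_rpow_atTop (by norm_num)).comp ?_
    exact Tendsto.const_mul_atTop (by norm_num) tendsto_natCast_atTop_atTop
  filter_upwards [ht.eventually_ge_atTop 12, eventually_ge_atTop (i0 + n0)] with j h2 h3
  obtain ⟨N, h4, h5⟩ := exp_le _ h2
  obtain ⟨x, hx⟩ : ∃ x : ℝ, x = (2 * j : ℝ) ^ (2 / 3 : ℝ) := ⟨_, rfl⟩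
  have hx' : ((2 * j : ℕ) : ℝ) ^ (2 / 3 : ℝ) = x := by rw [hx]; push_cast; rfl
  have hx0 : 0 ≤ x := by rw [hx]; positivity
  rw [← hx] at h2 h4 h5 ⊢
  obtain ⟨m, hm1, hm2, h6⟩ := H (fun _ => κ) (N + 1) (fun _ _ => Finset.mem_singleton_self _)
  obtain ⟨w, hw, hl⟩ := sume ⟨wk, hwk, hk⟩ (ks := fun _ => κ) (N + 1)
    (fun _ _ => ⟨w0, hw0, h0⟩)
  obtain ⟨r, hr⟩ := hm1
  have h7 := (h6 (2 * j) (by omega) (by
    rw [hx']
    refine h4.trans ?_
    apply mul_le_mul_of_nonneg_right _ hx0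
    rw [div_le_iff₀ hBM0]
    nlinarith) (vl w) hl).1
  rw [hx'] at h7
  have hQw : Q w := sums_mem hQ hc hwk hQk hk hw0 hQ0 h0 (N + 1) (vl w) hl w hw (Same.refl _)
  have h8 : (a (KT (vl w)) (2 * j + m) : ℝ) ≤ a Q (2 * j + m) := by
    exact_mod_cast kt_sub hQ hw hQw (2 * j + m)
  have h9 := K2SHIFT.pow_bound (fun i => (a Q (2 * i) : ℝ)) B hBp.le i0 hi0 r j (by omega)
  have e1 : 2 * j + m = 2 * (j + r) := by omega
  rw [e1] at h7 h8
  have hf : (0 : ℝ) < ((N + 1).factorial : ℝ) := by exact_mod_cast (N + 1).factorial_pos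
  have haQ : (0 : ℝ) ≤ a Q (2 * j) := Nat.cast_nonneg _
  have hak : (0 : ℝ) ≤ a (KT k) (2 * j) := Nat.cast_nonneg _
  have hBr : B ^ r ≤ (B ^ M) ^ (N + 1) := by
    rw [← pow_mul]
    exact pow_le_pow_right₀ hB1 (by omega)
  have h10 : (c * x) ^ (N + 1) / ((N + 1).factorial : ℝ) * a (KT k) (2 * j) ≤
      (B ^ M) ^ (N + 1) * a Q (2 * j) :=
    h7.trans (h8.trans (h9.trans (mul_le_mul_of_nonneg_right hBr haQ)))
  have e2 : (c / B ^ M * x) ^ (N + 1) * (B ^ M) ^ (N + 1) = (c * x) ^ (N + 1) := by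
    rw [← mul_pow]
    congr 1
    field_simp
  have h11 : (c / B ^ M * x) ^ (N + 1) / ((N + 1).factorial : ℝ) * a (KT k) (2 * j) ≤
      a Q (2 * j) := by
    have h12 : (0 : ℝ) < (B ^ M) ^ (N + 1) := by positivity
    refine le_of_mul_le_mul_left ?_ h12
    calc (B ^ M) ^ (N + 1) * ((c / B ^ M * x) ^ (N + 1) / ((N + 1).factorial : ℝ) *
          a (KT k) (2 * j))
        = ((c / B ^ M * x) ^ (N + 1) * (B ^ M) ^ (N + 1)) / ((N + 1).factorial : ℝ) *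
          a (KT k) (2 * j) := by ring
      _ = (c * x) ^ (N + 1) / ((N + 1).factorial : ℝ) * a (KT k) (2 * j) := by rw [e2]
      _ ≤ _ := h10
  have h12 : Real.exp (c / B ^ M / 6 * x) * a (KT k) (2 * j) ≤ a Q (2 * j) := by
    refine le_trans (mul_le_mul_of_nonneg_right ?_ hak) h11
    have e3 : c / B ^ M / 6 * x = c / B ^ M * x / 6 := by ring
    rw [e3]
    exact h5
  unfold pq
  rw [mul_div_assoc']
  exact div_le_div_of_nonneg_right h12 (by positivity)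

/-- comparison with the growth rate of the class -/
theorem class_up (Q : List Dir → Prop) (hQ : KClass Q) (hne : ∃ w, SAP w ∧ Q w) (hc : CSum Q)
    {k : List V} {c : ℝ} (hc0 : 0 < c) (H : ∀ᶠ j : ℕ in atTop,
      Real.exp (c * (2 * j : ℝ) ^ (2 / 3 : ℝ)) * pq (KT k) (2 * j) ≤ pq Q (2 * j)) :
    ∀ᶠ j : ℕ in atTop, pq (KT k) (2 * j) ≤
      Real.exp (-(c / 2 * (2 * j : ℝ) ^ (2 / 3 : ℝ))) * gr Q ^ (2 * j) := by
  obtain ⟨h1, -, -⟩ := gr_bounds Q hQ hne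
  have hμ : 0 < gr Q := by linarith
  have ht : Tendsto (fun j : ℕ => c / 2 * (2 * j : ℝ) ^ (2 / 3 : ℝ)) atTop atTop := by
    apply Tendsto.const_mul_atTop (by positivity)
    refine (tendsto_rpow_atTop (by norm_num)).comp ?_
    exact Tendsto.const_mul_atTop (by norm_num) tendsto_natCast_atTop_atTop
  filter_upwards [H, Pool.Agent.R945.KR.ub_csum Q hQ hne hc,
    ht.eventually_ge_atTop 16] with j h2 h3 h4
  have hU : 0 ≤ pq (KT k) (2 * j) := by unfold pq; positivity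
  obtain ⟨t, htt⟩ : ∃ t : ℝ, t = (2 * j : ℝ) ^ (2 / 3 : ℝ) := ⟨_, rfl⟩
  rw [← htt] at h2 h4 ⊢
  have hp : 0 < gr Q ^ (2 * j) := pow_pos hμ _
  unfold TH966.KS.yq at h3
  rw [div_le_iff₀ hp] at h3
  have e : c * t = c / 2 * t + c / 2 * t := by ring
  have h5 : Real.exp (c / 2 * t) * (Real.exp (c / 2 * t) * pq (KT k) (2 * j)) ≤
      16 * gr Q ^ (2 * j) := by
    rw [← mul_assoc, ← Real.exp_add, ← e]
    exact h2.trans h3
  have h6 : (16 : ℝ) ≤ Real.exp (c / 2 * t) := by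
    have := Real.add_one_le_exp (c / 2 * t)
    linarith
  have h7 : 16 * (Real.exp (c / 2 * t) * pq (KT k) (2 * j)) ≤ 16 * gr Q ^ (2 * j) :=
    (mul_le_mul_of_nonneg_right h6 (by positivity)).trans h5
  rw [Real.exp_neg, ← div_eq_inv_mul, le_div_iff₀ (Real.exp_pos _)]
  linarith

/-- strict inequality of the growth rates if the counts of `k` are not too small -/
theorem class_lt (Q : List Dir → Prop) {k : List V} {c : ℝ} (hc0 : 0 < c)
    (hg : 0 < gr Q) (H : ∀ᶠ j : ℕ in atTop, pq (KT k) (2 * j) ≤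
      Real.exp (-(c * (2 * j : ℝ) ^ (2 / 3 : ℝ))) * gr Q ^ (2 * j)) (D μ : ℝ)
    (hD : ∃ᶠ j : ℕ in atTop, μ ^ (2 * j) ≤ (2 * j : ℝ) ^ D * pq (KT k) (2 * j)) :
    μ < gr Q := by
  by_contra hcon
  rw [not_lt] at hcon
  -- `n ^ D exp (- c n ^ (2 / 3))` tends to zero
  have ht : Tendsto (fun x : ℝ => x ^ D * Real.exp (-(c * x ^ (2 / 3 : ℝ)))) atTop (𝓝 0) := by
    have h4 : Tendsto (fun y : ℝ => y ^ (3 / 2 * D) * Real.exp (-c * y)) atTop (𝓝 0) :=
      tendsto_rpow_mul_exp_neg_mul_atTop_nhds_zero (3 / 2 * D) c hc0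
    have h5 : Tendsto (fun x : ℝ => x ^ (2 / 3 : ℝ)) atTop atTop :=
      tendsto_rpow_atTop (by norm_num)
    refine (h4.comp h5).congr' ?_
    filter_upwards [eventually_gt_atTop 0] with x hx
    simp only [Function.comp]
    rw [← Real.rpow_mul hx.le, neg_mul]
    congr 2
    ring
  have ht2 : Tendsto (fun j : ℕ => (2 * j : ℝ)) atTop atTop :=
    Tendsto.const_mul_atTop (by norm_num) tendsto_natCast_atTop_atTop
  have h6 := (ht.comp ht2).eventually (gt_mem_nhds one_pos)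
  obtain ⟨j, hj1, hj2, hj3, hj4⟩ :=
    (hD.and_eventually (H.and (h6.and (eventually_gt_atTop 0)))).exists
  have hp : 0 < gr Q ^ (2 * j) := pow_pos hg _
  have hle : gr Q ^ (2 * j) ≤ μ ^ (2 * j) := pow_le_pow_left₀ hg.le hcon _
  simp only [Function.comp] at hj3
  have h9 : gr Q ^ (2 * j) < gr Q ^ (2 * j) := by
    calc gr Q ^ (2 * j) ≤ μ ^ (2 * j) := hle
      _ ≤ (2 * j : ℝ) ^ D * pq (KT k) (2 * j) := hj1
      _ ≤ (2 * j : ℝ) ^ D *
          (Real.exp (-(c * (2 * j : ℝ) ^ (2 / 3 : ℝ))) * gr Q ^ (2 * j)) :=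
        mul_le_mul_of_nonneg_left hj2 (by positivity)
      _ = ((2 * j : ℝ) ^ D * Real.exp (-(c * (2 * j : ℝ) ^ (2 / 3 : ℝ)))) *
          gr Q ^ (2 * j) := by ring
      _ < 1 * gr Q ^ (2 * j) := mul_lt_mul_of_pos_right hj3 hp
      _ = _ := one_mul _
  exact lt_irrefl _ h9

/-- the asymptotic form gives a lower bound for the counts -/
theorem form_low {p : ℕ → ℝ} {A α μ : ℝ} (hA : 0 < A) (hμ : 0 < μ)
    (h : Tendsto (fun k : ℕ => p (2 * k) / ((2 * k : ℝ) ^ (α - 3) * μ ^ (2 * k))) atTop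
      (𝓝 A)) : ∃ D : ℝ, ∃ᶠ j : ℕ in atTop, μ ^ (2 * j) ≤ (2 * j : ℝ) ^ D * p (2 * j) := by
  refine ⟨-(α - 3) + 1, Eventually.frequently ?_⟩
  have ht2 : Tendsto (fun j : ℕ => A / 2 * (2 * j : ℝ)) atTop atTop :=
    Tendsto.const_mul_atTop (by positivity)
      (Tendsto.const_mul_atTop (by norm_num) tendsto_natCast_atTop_atTop)
  filter_upwards [h.eventually (lt_mem_nhds (show A / 2 < A by linarith)),
    ht2.eventually_ge_atTop 1, eventually_gt_atTop 0] with j h1 h2 hj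
  have hj0 : (0 : ℝ) < 2 * j := by
    have : (0 : ℝ) < j := by exact_mod_cast hj
    linarith
  have hp : 0 < μ ^ (2 * j) := pow_pos hμ _
  have hr : (0 : ℝ) < (2 * j : ℝ) ^ (α - 3) := Real.rpow_pos_of_pos hj0 _
  rw [lt_div_iff₀ (by positivity)] at h1
  have e : (2 * j : ℝ) ^ (-(α - 3) + 1) = ((2 * j : ℝ) ^ (α - 3))⁻¹ * (2 * j) := by
    rw [Real.rpow_add hj0, Real.rpow_neg hj0.le, Real.rpow_one]
  rw [e]
  have h4 : μ ^ (2 * j) ≤ A / 2 * (2 * j) * μ ^ (2 * j) := by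
    nlinarith
  have h5 : ((2 * j : ℝ) ^ (α - 3))⁻¹ * (2 * j) * (A / 2 * ((2 * j : ℝ) ^ (α - 3) *
      μ ^ (2 * j))) = A / 2 * (2 * j) * μ ^ (2 * j) := by
    field_simp
  calc μ ^ (2 * j) ≤ A / 2 * (2 * j) * μ ^ (2 * j) := h4
    _ = _ := h5.symm
    _ ≤ _ := mul_le_mul_of_nonneg_left h1.le (by positivity)

/-- the unknot has no summand without inverse -/
theorem fin1_unknot {κ : List V} (h : NonInv κ) : Fin1 sq κ := by
  refine ⟨1, fun k' _ hs => ?_⟩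
  obtain ⟨l1, v, l2, hF, -, h2, h3⟩ := hs
  exact h l1 v l2 hF h2 (Or.inl h3.symm)

end

end KNM
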