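import Pool.Agent.L5helper86.KB.All

/-!
# Counting words with many blocks over a polygon of any knot type, uniformly in the number of blocks

Adapted from `H246K3/YCNT` and `L5helper86/KB/Count`.
-/

set_option autoImplicit false

namespace KNM

open Finset Filter Topology KN KNB
open scoped Classical

noncomputable section

open K3YCNT (bps box mem_box card_box bps_length mem_bps)

/-- Y8 with constants which do not depend on the number of blocks -/
theorem cnt_unif (k : List V) (T L B R : ℕ) (hLL : LLat T L R) (hR : 1 ≤ R) :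
    ∃ c δ : ℝ, 0 < c ∧ 0 < δ ∧
    ∃ n0 : ℕ, ∀ n ≥ n0, ∀ v : ℕ → List Dir, SmB L B v → ∀ N : ℕ,
      (N : ℝ) ≤ δ * (n : ℝ) ^ (2 / 3 : ℝ) →
      c * (n : ℝ) ^ (2 / 3 : ℝ) * (VQ k T L v N n).card ≤ (VQ k T L v (N + 1) n).card := by
  have hbas := e_bas
  have hmany := d_many
  obtain ⟨c, hc, hev⟩ := hmany R hR
  obtain ⟨n0, hn0⟩ := eventually_atTop.1 hev
  set r := raZ T L B with hr
  set Q : ℕ := (6 * (6 * (3 * 13 ^ 3))) with hQ
  have hQ0 : (0 : ℝ) < Q := by
    rw [hQ]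
    positivity
  refine ⟨c / (2 * Q), c / (2 * (2 * r + 1) ^ 3), by positivity, by positivity, n0, ?_⟩
  intro n hn v hv N hN
  set D := ((List.range N).map (fun i => (blk T (v i)).length - 1)).sum with hD
  set M0 : ℕ := N * (2 * r + 1) ^ 3 with hM0
  have hn1 := hn0 (n + D) (by omega)
  have hn2 : (M0 : ℝ) ≤ c / 2 * (n : ℝ) ^ (2 / 3 : ℝ) := by
    have h3 : (0 : ℝ) < (2 * (r : ℝ) + 1) ^ 3 := by positivity
    have h4 := mul_le_mul_of_nonneg_right hN h3.le
    have h5 : c / (2 * (2 * (r : ℝ) + 1) ^ 3) * (n : ℝ) ^ (2 / 3 : ℝ) * (2 * (r : ℝ) + 1) ^ 3 =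
        c / 2 * (n : ℝ) ^ (2 / 3 : ℝ) := by
      field_simp
    rw [h5] at h4
    rw [hM0]
    push_cast
    exact h4
  have hC : ∀ W : List Sz, ∃ C : Finset Z3, W ∈ VQ k T L v N n →
      (c / 2 * (n : ℝ) ^ (2 / 3 : ℝ) ≤ C.card ∧ ∀ x ∈ C, ¬ near 6 x 0 ∧
        (∃ N, Cont R {p | p ∈ path (EZ T v W)} x N) ∧ faZ T v r W x) := by
    intro W
    by_cases hW : W ∈ VQ k T L v N n
    swap
    · exact ⟨∅, fun h => absurd h hW⟩
    rw [mem_VQ] at hW
    obtain ⟨hW1, hW2, hW3⟩ := hW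
    have hlen : (EZ T v W).length = n + D := by
      rw [(hbas T L B v hv W).2.2.1, hW1, (hW2.map _).sum_eq]
    obtain ⟨C, hC1, hC2⟩ := hn1 (EZ T v W) hW3.ext hlen
    refine ⟨C.filter (fun x => faZ T v r W x), fun _ => ⟨?_, ?_⟩⟩
    · have hbad : (C.filter (fun x => ¬ faZ T v r W x)).card ≤ M0 := by
        have hsub : C.filter (fun x => ¬ faZ T v r W x) ⊆
            (bps T v W).toFinset.biUnion (fun q => box r q) := by
          intro x hx
          rw [mem_filter] at hx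
          obtain ⟨-, hx⟩ := hx
          unfold faZ at hx
          push Not at hx
          obtain ⟨A, B', i, d, f, hAB, hx⟩ := hx
          rw [mem_biUnion]
          refine ⟨pos (EZ T v B'), ?_, mem_box.2 hx⟩
          rw [List.mem_toFinset, hAB]
          exact mem_bps T v A B' i d f
        refine (card_le_card hsub).trans ?_
        refine (card_biUnion_le_card_mul _ _ ((2 * r + 1) ^ 3) (fun q _ => (card_box r q).le)).trans
          ?_
        rw [hM0]
        apply Nat.mul_le_mul_right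
        refine (List.toFinset_card_le _).trans ?_
        rw [bps_length, hW2.length_eq, List.length_range]
      have hsum := card_filter_add_card_filter_not (s := C) (fun x => faZ T v r W x)
      have hn3 : (n : ℝ) ^ (2 / 3 : ℝ) ≤ ((n + D : ℕ) : ℝ) ^ (2 / 3 : ℝ) := by
        apply Real.rpow_le_rpow (by positivity) _ (by norm_num)
        exact_mod_cast Nat.le_add_right _ _
      have hn4 : c * (n : ℝ) ^ (2 / 3 : ℝ) ≤ C.card :=
        (mul_le_mul_of_nonneg_left hn3 hc.le).trans hC1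
      have hb' : ((C.filter (fun x => ¬ faZ T v r W x)).card : ℝ) ≤ M0 := by
        exact_mod_cast hbad
      have hs' : ((C.filter (fun x => faZ T v r W x)).card : ℝ) +
          ((C.filter (fun x => ¬ faZ T v r W x)).card : ℝ) = C.card := by
        exact_mod_cast hsum
      linarith
    · intro x hx
      rw [mem_filter] at hx
      exact ⟨(hC2 x hx.1).1, (hC2 x hx.1).2, hx.2⟩
  choose C hC using hC
  have key := count (k := k) T L v N n C (by
    intro W hW x hx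
    obtain ⟨-, h3⟩ := hC W hW
    obtain ⟨h4, ⟨N', h5⟩, h6⟩ := h3 x hx
    exact con T L B R v hv hLL W (mem_VQ.1 hW).2.2 x N' h5 h4 h6 N)
  have hlow : c / 2 * (n : ℝ) ^ (2 / 3 : ℝ) * (VQ k T L v N n).card ≤
      ((∑ W ∈ VQ k T L v N n, (C W).card : ℕ) : ℝ) := by
    push_cast
    rw [mul_comm, ← nsmul_eq_mul]
    exact Finset.card_nsmul_le_sum _ _ _ (fun W hW => (hC W hW).1)
  have key' : ((∑ W ∈ VQ k T L v N n, (C W).card : ℕ) : ℝ) ≤ (VQ k T L v (N + 1) n).card * Q := by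
    exact_mod_cast key
  have hfin := hlow.trans key'
  rw [div_mul_eq_mul_div, div_mul_eq_mul_div, div_le_iff₀ (by positivity)]
  calc c * (n : ℝ) ^ (2 / 3 : ℝ) * (VQ k T L v N n).card
      = 2 * (c / 2 * (n : ℝ) ^ (2 / 3 : ℝ) * (VQ k T L v N n).card) := by ring
    _ ≤ 2 * ((VQ k T L v (N + 1) n).card * Q) := by linarith
    _ = (VQ k T L v (N + 1) n).card * (2 * Q) := by ring

/-- many blocks -/
theorem cnt_pow {k : List V} {T L : ℕ} {c δ : ℝ} (hc : 0 < c) {n : ℕ} {v : ℕ → List Dir}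
    (h : ∀ N : ℕ, (N : ℝ) ≤ δ * (n : ℝ) ^ (2 / 3 : ℝ) →
      c * (n : ℝ) ^ (2 / 3 : ℝ) * (VQ k T L v N n).card ≤ (VQ k T L v (N + 1) n).card) (N : ℕ)
    (hN : (N : ℝ) ≤ δ * (n : ℝ) ^ (2 / 3 : ℝ)) :
    (c * (n : ℝ) ^ (2 / 3 : ℝ)) ^ N * a (Ok k) n ≤ (VQ k T L v N n).card := by
  induction N with
  | zero => rw [zero T L v n]; simp
  | succ N ih =>
    have h1 : (N : ℝ) ≤ δ * (n : ℝ) ^ (2 / 3 : ℝ) := by
      push_cast at hN
      linarith
    have h2 := ih h1
    have h3 : 0 ≤ c * (n : ℝ) ^ (2 / 3 : ℝ) := by positivity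
    calc (c * (n : ℝ) ^ (2 / 3 : ℝ)) ^ (N + 1) * a (Ok k) n
        = c * (n : ℝ) ^ (2 / 3 : ℝ) * ((c * (n : ℝ) ^ (2 / 3 : ℝ)) ^ N * a (Ok k) n) := by ring
      _ ≤ c * (n : ℝ) ^ (2 / 3 : ℝ) * (VQ k T L v N n).card := mul_le_mul_of_nonneg_left h2 h3
      _ ≤ _ := h N h1

end

end KNM
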