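import Pool.Agent.L5helper86.KB.All

/-!
# Multiplicity of the decompositions into blocks, with the dependence on the number of blocks
-/

set_option autoImplicit false

namespace KNM

open Finset Filter Topology KN KNB
open scoped Classical

noncomputable section

open K3YMUL (EZ_nil EZ_cons EZ_append blk_pos blk_le)

/-- offsets of the blocks -/
def Po (T : ℕ) (v : ℕ → List Dir) : ℕ → List Sz → Finset ℕ
  | _, [] => ∅
  | o, .lt _ :: W => Po T v (o + 1) W
  | o, .bl i _ _ :: W => insert o (Po T v (o + (blk T (v i)).length) W)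

/-- directions of the blocks -/
def di (W : List Sz) : List (Dir × Dir) := W.filterMap (fun s => match s with
  | .lt _ => none
  | .bl _ d f => some (d, f))

theorem di_lt (f : Dir) (W : List Sz) : di (.lt f :: W) = di W := rfl

theorem di_bl (i : ℕ) (d f : Dir) (W : List Sz) : di (.bl i d f :: W) = (d, f) :: di W := rfl

theorem lab_lt (f : Dir) (W : List Sz) : lab (.lt f :: W) = lab W := rfl

theorem lab_bl (i : ℕ) (d f : Dir) (W : List Sz) : lab (.bl i d f :: W) = i :: lab W := rfl

theorem di_length (W : List Sz) : (di W).length = (lab W).length := by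
  induction W with
  | nil => rfl
  | cons s W ih =>
    cases s with
    | lt f => rw [di_lt, lab_lt, ih]
    | bl i d f => rw [di_bl, lab_bl, List.length_cons, List.length_cons, ih]

theorem Po_ge (T : ℕ) (v : ℕ → List Dir) : ∀ (W : List Sz) (o q : ℕ), q ∈ Po T v o W → o ≤ q := by
  intro W
  induction W with
  | nil => intro o q hq; simp [Po] at hq
  | cons s W ih =>
    intro o q hq
    cases s with
    | lt f =>
      have := ih (o + 1) q hq
      omega
    | bl i d f =>
      simp only [Po, Finset.mem_insert] at hq
      rcases hq with rfl | hq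
      · exact le_refl _
      · have := ih _ q hq
        omega

theorem Po_mem (T : ℕ) (v : ℕ → List Dir) : ∀ (W : List Sz) (o m : ℕ), m ∈ Po T v o W →
    ∃ (A B : List Sz) (i : ℕ) (d f : Dir), W = A ++ .bl i d f :: B ∧
      m = o + (EZ T v A).length := by
  intro W
  induction W with
  | nil => intro o m hq; simp [Po] at hq
  | cons s W ih =>
    intro o m hq
    cases s with
    | lt e =>
      obtain ⟨A, B, i, d, f, h1, h2⟩ := ih (o + 1) m hq
      refine ⟨.lt e :: A, B, i, d, f, by rw [h1]; rfl, ?_⟩
      rw [EZ_cons, List.length_append, h2]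
      simp only [szw, List.length_cons, List.length_nil]
      omega
    | bl i' d' f' =>
      simp only [Po, Finset.mem_insert] at hq
      rcases hq with rfl | hq
      · exact ⟨[], W, i', d', f', rfl, by simp [EZ_nil]⟩
      · obtain ⟨A, B, i, d, f, h1, h2⟩ := ih _ m hq
        refine ⟨.bl i' d' f' :: A, B, i, d, f, by rw [h1]; rfl, ?_⟩
        rw [EZ_cons, List.length_append, h2]
        simp only [szw, List.length_map]
        omega

theorem mem_Po (T : ℕ) (v : ℕ → List Dir) : ∀ (A B : List Sz) (o i : ℕ) (d f : Dir),
    o + (EZ T v A).length ∈ Po T v o (A ++ .bl i d f :: B) := by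
  intro A
  induction A with
  | nil => intro B o i d f; simp [Po, EZ_nil]
  | cons s A ih =>
    intro B o i d f
    cases s with
    | lt e =>
      have := ih B (o + 1) i d f
      have e : o + (EZ T v (Sz.lt e :: A)).length = o + 1 + (EZ T v A).length := by
        rw [EZ_cons, List.length_append]
        simp only [szw, List.length_cons, List.length_nil]
        omega
      rw [e]
      exact this
    | bl i' d' f' =>
      have := ih B (o + (blk T (v i')).length) i d f
      have e : o + (EZ T v (Sz.bl i' d' f' :: A)).length =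
          o + (blk T (v i')).length + (EZ T v A).length := by
        rw [EZ_cons, List.length_append]
        simp only [szw, List.length_map]
        omega
      rw [e, List.cons_append, Po, Finset.mem_insert]
      right
      exact this

theorem Po_card (T : ℕ) (v : ℕ → List Dir) : ∀ (W : List Sz) (o : ℕ),
    (Po T v o W).card ≤ (lab W).length := by
  intro W
  induction W with
  | nil => intro o; simp [Po]
  | cons s W ih =>
    intro o
    cases s with
    | lt e =>
      have h1 := ih (o + 1)
      rw [lab_lt]
      exact h1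
    | bl i d f =>
      have h1 := ih (o + (blk T (v i)).length)
      have h2 := Finset.card_insert_le o (Po T v (o + (blk T (v i)).length) W)
      rw [lab_bl, List.length_cons]
      simp only [Po]
      omega

/-- a word with blocks is determined by its expansion, the offsets, the types and the directions of
the blocks -/
theorem inj' (T : ℕ) (v : ℕ → List Dir) : ∀ (W W' : List Sz) (o : ℕ), EZ T v W = EZ T v W' →
    Po T v o W = Po T v o W' → lab W = lab W' → di W = di W' → W = W' := by
  intro W
  induction W with
  | nil =>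
    intro W' o h1 _ _ _
    cases W' with
    | nil => rfl
    | cons s W' =>
      exfalso
      rw [EZ_nil, EZ_cons] at h1
      have h3 := congrArg List.length h1
      rw [List.length_append] at h3
      cases s with
      | lt f => simp only [szw, List.length_cons, List.length_nil] at h3; omega
      | bl i d f =>
        have hb := blk_pos T (v i)
        simp only [szw, List.length_map, List.length_nil] at h3
        omega
  | cons s W ih =>
    intro W' o h1 h2 hl hd
    cases W' with
    | nil =>
      exfalso
      rw [EZ_nil, EZ_cons] at h1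
      have h3 := congrArg List.length h1
      rw [List.length_append] at h3
      cases s with
      | lt f => simp only [szw, List.length_cons, List.length_nil] at h3; omega
      | bl i d f =>
        have hb := blk_pos T (v i)
        simp only [szw, List.length_map, List.length_nil] at h3
        omega
    | cons s' W' =>
      rw [EZ_cons, EZ_cons] at h1
      cases s with
      | lt e =>
        cases s' with
        | lt e' =>
          simp only [szw, List.singleton_append, List.cons.injEq] at h1
          rw [lab_lt, lab_lt] at hl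
          rw [di_lt, di_lt] at hd
          rw [h1.1, ih W' (o + 1) h1.2 h2 hl hd]
        | bl i d f =>
          exfalso
          have h3 : o ∈ Po T v o (.lt e :: W) := by
            rw [h2]; simp [Po]
          have := Po_ge T v W (o + 1) _ h3
          omega
      | bl i d f =>
        have hb := blk_pos T (v i)
        cases s' with
        | lt e' =>
          exfalso
          have h3 : o ∈ Po T v o (.lt e' :: W') := by
            rw [← h2]; simp [Po]
          have := Po_ge T v W' (o + 1) _ h3
          omega
        | bl i' d' f' =>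
          rw [lab_bl, lab_bl, List.cons.injEq] at hl
          rw [di_bl, di_bl, List.cons.injEq, Prod.mk.injEq] at hd
          obtain ⟨rfl, hl⟩ := hl
          obtain ⟨⟨rfl, rfl⟩, hd⟩ := hd
          have h5 := List.append_cancel_left h1
          have hn : ∀ X : List Sz, o ∉ Po T v (o + (blk T (v i)).length) X := by
            intro X hX
            have := Po_ge T v X _ _ hX
            omega
          have h6 : Po T v (o + (blk T (v i)).length) W =
              Po T v (o + (blk T (v i)).length) W' := by
            have h7 := congrArg (fun S => Finset.erase S o) h2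
            simp only [Po] at h7
            rwa [Finset.erase_insert (hn W), Finset.erase_insert (hn W')] at h7
          rw [ih W' _ h5 h6 hl hd]

/-- lists of length `N` of pairs of directions -/
def dl (N : ℕ) : Finset (List (Dir × Dir)) :=
  (univ : Finset (Fin N → Dir × Dir)).image List.ofFn

theorem dl_card (N : ℕ) : (dl N).card ≤ 36 ^ N := by
  unfold dl
  refine Finset.card_image_le.trans ?_
  rw [Finset.card_univ, Fintype.card_fun, Fintype.card_fin, Fintype.card_prod]
  have : Fintype.card Dir = 6 := rfl
  rw [this]

theorem mem_dl {N : ℕ} {l : List (Dir × Dir)} (h : l.length = N) : l ∈ dl N := by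
  unfold dl
  rw [Finset.mem_image]
  subst h
  exact ⟨fun i => l.get i, Finset.mem_univ _, List.ofFn_get l⟩

theorem perm_card (N : ℕ) : ((List.range N).permutations.toFinset).card ≤ N.factorial := by
  refine (List.toFinset_card_le _).trans ?_
  rw [List.length_permutations, List.length_range]

/-- all places of blocks in the words with the same expansion lie in few windows -/
theorem windows {k : List V} (F : Finset (List V)) {m : ℕ} (μ : List V → ℕ)
    (hμ : ∀ κ ∈ F, μ κ ≤ m)
    (hm : ∀ κ ∈ F, ∀ k' : List V, (∃ w, SAP w ∧ Same (vl w) k') →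
      ¬ SumQ k' (fun _ => κ) (μ κ) k)
    {T L Bd : ℕ} {v : ℕ → List Dir} (hv : SmB L Bd v) (ρ : List V → List Dir)
    {ks : ℕ → List V} (hks : ∀ i, ks i ∈ F) (hρ : ∀ i, v i = ρ (ks i))
    (hs : ∀ i, Same (vl (.zm :: v i)) (ks i)) {N n : ℕ} (hn : m * (Bd + 2 * T) + 4 ≤ n)
    {w : List Dir} {W₀ : List Sz} (hW₀ : W₀ ∈ VQ k T L v N n) (hw₀ : EZ T v W₀ = w) :
    ∃ R : Finset ℕ, R.card ≤ F.card * (N + m) ∧ ∀ W ∈ VQ k T L v N n, EZ T v W = w →
      ∀ p ∈ Po T v 0 W, ∃ q ∈ R, ¬ far (Bd + 2 * T) p q := by
  obtain ⟨hl0, hn0, hV0⟩ := mem_VQ.1 hW₀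
  have hR₀c : (Po T v 0 W₀).card ≤ N := by
    refine (Po_card T v W₀ 0).trans ?_
    rw [hn0.length_eq, List.length_range]
  have hR : ∀ κ : List V, ∃ R : Finset ℕ, κ ∈ F → (R.card ≤ N + m ∧
      ∀ W ∈ VQ k T L v N n, EZ T v W = w → ∀ (A B' : List Sz) (i : ℕ) (d f : Dir), ks i = κ →
        W = A ++ .bl i d f :: B' → ∃ q ∈ R, ¬ far (Bd + 2 * T) (EZ T v A).length q) := by
    intro κ
    by_cases hκ : κ ∈ F
    swap
    · exact ⟨∅, fun h => absurd h hκ⟩
    by_cases hi : ∃ i, ks i = κ
    swap
    · exact ⟨∅, fun _ => ⟨by simp, fun W _ _ A B' i d f h _ => absurd ⟨i, h⟩ hi⟩⟩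
    obtain ⟨i, hi⟩ := hi
    have hμκ := hμ κ hκ
    obtain ⟨R, h1, h2⟩ := few hv (i := i) (hi ▸ hs i) (hm κ hκ) hV0 (by
        rw [hl0]
        have : μ κ * (Bd + 2 * T) ≤ m * (Bd + 2 * T) := Nat.mul_le_mul_right _ hμκ
        omega)
      (Po T v 0 W₀) (by
        intro A₀ B₀ i₀ d₀ f₀ h0
        have := mem_Po T v A₀ B₀ 0 i₀ d₀ f₀
        rw [zero_add] at this
        rw [h0]
        exact this)
      (fun p => ∃ W ∈ VQ k T L v N n, EZ T v W = w ∧ ∃ (A B' : List Sz) (j : ℕ) (d f : Dir),
        ks j = κ ∧ W = A ++ .bl j d f :: B' ∧ (EZ T v A).length = p) (by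
        rintro p ⟨W, hW, hw, A, B', j, d, f, hj, hAB, hp⟩
        obtain ⟨_, _, hV⟩ := mem_VQ.1 hW
        have hvij : v i = v j := by rw [hρ i, hρ j, hi, hj]
        refine ⟨EZ T v A, EZ T v B', d, f, hp, ?_, hV.room A B' j d f hAB⟩
        rw [hw₀, ← hw, hAB, EZ_append, EZ_cons, hvij]
        simp [szw])
    refine ⟨R, fun _ => ⟨by omega, ?_⟩⟩
    intro W hW hw A B' j d f hj hAB
    exact h2 _ ⟨W, hW, hw, A, B', j, d, f, hj, hAB, rfl⟩
  choose R hR using hR
  refine ⟨F.biUnion R, ?_, ?_⟩
  · exact card_biUnion_le_card_mul F R (N + m) (fun κ hκ => (hR κ hκ).1)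
  · intro W hW hw p hp
    obtain ⟨A, B, i, d, f, h1, h2⟩ := Po_mem T v W 0 p hp
    obtain ⟨q, hq, hfar⟩ := (hR (ks i) (hks i)).2 W hW hw A B i d f rfl h1
    refine ⟨q, mem_biUnion.2 ⟨ks i, hks i, hq⟩, ?_⟩
    rw [h2, zero_add]
    exact hfar

/-- the number of words with `N` blocks and the same expansion -/
theorem mul_unif {k : List V} (F : Finset (List V)) {m : ℕ} (μ : List V → ℕ)
    (hμ : ∀ κ ∈ F, μ κ ≤ m)
    (hm : ∀ κ ∈ F, ∀ k' : List V, (∃ w, SAP w ∧ Same (vl w) k') →
      ¬ SumQ k' (fun _ => κ) (μ κ) k)
    {T L Bd : ℕ} {v : ℕ → List Dir} (hv : SmB L Bd v) (ρ : List V → List Dir)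
    {ks : ℕ → List V} (hks : ∀ i, ks i ∈ F) (hρ : ∀ i, v i = ρ (ks i))
    (hs : ∀ i, Same (vl (.zm :: v i)) (ks i)) {N n : ℕ} (hn : m * (Bd + 2 * T) + 4 ≤ n)
    (w : List Dir) :
    ((VQ k T L v N n).filter (fun W => EZ T v W = w)).card ≤
      2 ^ (F.card * (N + m) * (2 * (Bd + 2 * T))) * (36 ^ N * N.factorial) := by
  set D := Bd + 2 * T with hD
  set G := (VQ k T L v N n).filter (fun W => EZ T v W = w) with hG
  rcases G.eq_empty_or_nonempty with he | ⟨W0, hW0⟩
  · rw [he]; simp
  · rw [hG, Finset.mem_filter] at hW0
    obtain ⟨R, hR1, hR2⟩ := windows F μ hμ hm hv ρ hks hρ hs hn hW0.1 hW0.2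
    set J : Finset ℕ := R.biUnion (fun q => Finset.Ico (q + 1 - D) (q + D)) with hJ
    have hJc : J.card ≤ F.card * (N + m) * (2 * D) := by
      refine Finset.card_biUnion_le.trans ?_
      calc ∑ q ∈ R, (Finset.Ico (q + 1 - D) (q + D)).card
          ≤ ∑ _q ∈ R, 2 * D := by
            refine Finset.sum_le_sum fun q _ => ?_
            rw [Nat.card_Ico]
            omega
        _ = R.card * (2 * D) := by rw [Finset.sum_const, smul_eq_mul]
        _ ≤ _ := Nat.mul_le_mul_right _ hR1
    have hle : G.card ≤
        (J.powerset ×ˢ ((List.range N).permutations.toFinset ×ˢ dl N)).card := by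
      refine Finset.card_le_card_of_injOn (fun W => (Po T v 0 W, lab W, di W)) ?_ ?_
      · intro W hW
        rw [Finset.mem_coe, hG, Finset.mem_filter] at hW
        obtain ⟨_, hlab, hV⟩ := mem_VQ.1 hW.1
        rw [Finset.mem_coe, Finset.mem_product, Finset.mem_product]
        refine ⟨?_, ?_, ?_⟩
        · rw [Finset.mem_powerset]
          intro p hp
          obtain ⟨q, hq, hfar⟩ := hR2 W hW.1 hW.2 p hp
          rw [hJ, Finset.mem_biUnion]
          refine ⟨q, hq, ?_⟩
          unfold far at hfar
          simp only [Finset.mem_Ico]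
          omega
        · rw [List.mem_toFinset, List.mem_permutations]
          exact hlab
        · refine mem_dl ?_
          rw [di_length, hlab.length_eq, List.length_range]
      · intro W hW W' hW' he
        rw [Finset.mem_coe, hG, Finset.mem_filter] at hW hW'
        simp only [Prod.mk.injEq] at he
        exact inj' T v W W' 0 (by rw [hW.2, hW'.2]) he.1 he.2.1 he.2.2
    refine hle.trans ?_
    rw [Finset.card_product, Finset.card_product, Finset.card_powerset]
    calc 2 ^ J.card * (((List.range N).permutations.toFinset).card * (dl N).card)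
        ≤ 2 ^ (F.card * (N + m) * (2 * D)) * (N.factorial * 36 ^ N) :=
          Nat.mul_le_mul (Nat.pow_le_pow_right (by norm_num) hJc)
            (Nat.mul_le_mul (perm_card N) (dl_card N))
      _ = _ := by ring

end

end KNM
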