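import Pool.Agent.L5helper43.KM.Cnt
import Pool.Agent.L5helper43.KM.Mul

/-!
# Connected sums of a knot with many knots from a finite set
-/

set_option autoImplicit false

namespace KNM

open Finset Filter Topology KN KNB
open scoped Classical

noncomputable section

open K3YALL (sum_even SmR_mono)

/-- the number of additional letters -/
def ml (T : ℕ) (v : ℕ → List Dir) (N : ℕ) : ℕ :=
  ((List.range N).map (fun i => (blk T (v i)).length - 1)).sum

theorem ml_even {L B : ℕ} {v : ℕ → List Dir} (hv : SmB L B v) (T N : ℕ) : ml T v N % 2 = 0 := by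
  unfold ml
  apply sum_even
  intro x hx
  obtain ⟨i, -, rfl⟩ := List.mem_map.1 hx
  have hlen : (blk T (v i)).length = 2 * (T + 1) + (v i).length := by
    unfold blk
    simp only [List.length_append, List.length_replicate]
    omega
  have hodd : ((v i).length + 1) % 2 = 0 := by
    have h2 := even_of_closed ((hv i).1.1.2.1)
    simpa using h2
  omega

theorem sum_le_mul (M : ℕ) : ∀ l : List ℕ, (∀ x ∈ l, x ≤ M) → l.sum ≤ M * l.length
  | [], _ => by simp
  | x :: l, h => by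
    have h1 := h x (by simp)
    have h2 := sum_le_mul M l (fun y hy => h y (by simp [hy]))
    rw [List.sum_cons, List.length_cons, mul_add]
    omega

theorem ml_le {L B : ℕ} {v : ℕ → List Dir} (hv : SmB L B v) (T N : ℕ) :
    ml T v N ≤ (B + 2 * T) * N := by
  unfold ml
  refine (sum_le_mul (B + 2 * T) _ ?_).trans ?_
  · intro x hx
    obtain ⟨i, -, rfl⟩ := List.mem_map.1 hx
    have := K3YMUL.blk_le hv T i
    omega
  · rw [List.length_map, List.length_range]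

/-- many knots from a finite set: closed words, oriented base -/
theorem main_f (k : List V) (F : Finset (List V))
    (hF : ∀ κ ∈ F, Fin1 k κ ∧ ∃ w, SAP w ∧ Same (vl w) κ) :
    ∃ (c δ : ℝ) (M n0 : ℕ), 0 < c ∧ 0 < δ ∧
    ∀ (ks : ℕ → List V) (N : ℕ), (∀ i < N, ks i ∈ F) → ∃ m : ℕ, m % 2 = 0 ∧ m ≤ M * N ∧
      ∀ n ≥ n0, (N : ℝ) ≤ δ * (n : ℝ) ^ (2 / 3 : ℝ) → ∀ l : List V, SumQ k ks N l →
        (c * (n : ℝ) ^ (2 / 3 : ℝ)) ^ N / N.factorial * a (Ok k) n ≤ a (KT l) (n + m) := by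
  have h1 : ∀ κ : List V, ∃ (L : ℕ) (v : List Dir) (m : ℕ), κ ∈ F → SmR L v ∧
      Same (vl (.zm :: v)) κ ∧ ∀ k' : List V, (∃ w, SAP w ∧ Same (vl w) k') →
        ¬ SumQ k' (fun _ => κ) m k := by
    intro κ
    by_cases h : κ ∈ F
    · obtain ⟨L, v, h2, h3⟩ := T_vex_proof κ (hF κ h).2
      obtain ⟨m, hm⟩ := (hF κ h).1
      exact ⟨L, v, m, fun _ => ⟨h2, h3, hm⟩⟩
    · exact ⟨0, [], 0, fun h' => absurd h' h⟩
  choose L ρ μ hρ using h1
  set L0 := F.sup L with hL0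
  set B := F.sup (fun κ => (blk 0 (ρ κ)).length) with hB
  set m := F.sup μ with hm
  have hμ : ∀ κ ∈ F, μ κ ≤ m := fun κ hκ => Finset.le_sup (f := μ) hκ
  obtain ⟨R, hR, hLR⟩ := d_LL (2 * L0 + 4) L0 le_rfl
  set T := 2 * L0 + 4 with hT
  obtain ⟨c, δ, hc, hδ, n0, h0⟩ := cnt_unif k T L0 B R hLR hR
  set D := B + 2 * T with hD
  set C : ℝ := 2 ^ (F.card * (1 + m) * (2 * D)) * 36 with hC
  have hC0 : 0 < C := by rw [hC]; positivity
  refine ⟨c / C, δ, D, max n0 (m * D + 4), by positivity, hδ, ?_⟩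
  intro ks N hks
  rcases Nat.eq_zero_or_pos N with rfl | hN
  · refine ⟨0, rfl, by simp, ?_⟩
    intro n _ _ l hl
    have h : a (Ok k) n ≤ a (KT l) n := by
      unfold a
      apply Finset.card_le_card
      intro w hw
      obtain ⟨h1, h2, h3⟩ := mem_K.1 hw
      exact mem_K.2 ⟨h1, h2, Or.inl (Same.trans h3 (Same.symm hl))⟩
    have h' : (a (Ok k) n : ℝ) ≤ (a (KT l) n : ℝ) := by exact_mod_cast h
    simpa using h'
  have hlt : ∀ i, min i (N - 1) < N := fun i => by omega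
  obtain ⟨ks', hks'⟩ : ∃ ks' : ℕ → List V, ks' = fun i => ks (min i (N - 1)) := ⟨_, rfl⟩
  have hks2 : ∀ i, ks' i ∈ F := fun i => by rw [hks']; exact hks _ (hlt i)
  obtain ⟨v, hvd⟩ : ∃ v : ℕ → List Dir, v = fun i => ρ (ks' i) := ⟨_, rfl⟩
  have hvρ : ∀ i, v i = ρ (ks' i) := fun i => by rw [hvd]
  have hv : SmB L0 B v := by
    intro i
    rw [hvρ i]
    exact ⟨SmR_mono (Finset.le_sup (f := L) (hks2 i)) (hρ _ (hks2 i)).1,
      Finset.le_sup (f := fun κ => (blk 0 (ρ κ)).length) (hks2 i)⟩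
  have hvk : ∀ i, Same (vl (.zm :: v i)) (ks' i) := by
    intro i
    rw [hvρ i]
    exact (hρ _ (hks2 i)).2.1
  refine ⟨ml T v N, ml_even hv T N, ml_le hv T N, ?_⟩
  intro n hn hN2 l hl
  have hl' : SumQ k ks' N l := by
    refine sumQ_congr (fun i hi => ?_) hl
    have : min i (N - 1) = i := by omega
    rw [hks']
    simp only [this]
  have hn1 : n0 ≤ n := (le_max_left _ _).trans hn
  have hn2 : m * D + 4 ≤ n := (le_max_right _ _).trans hn
  have h1 := cnt_pow hc (fun N hN => h0 n hn1 v hv N hN) N hN2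
  set E : ℕ := 2 ^ (F.card * (N + m) * (2 * D)) * (36 ^ N * N.factorial) with hE
  have h3 : (VQ k T L0 v N n).card ≤ E * a (KT l) (n + ml T v N) := by
    have h4 : (VQ k T L0 v N n).card ≤ E * ((VQ k T L0 v N n).image (EZ T v)).card := by
      apply Finset.card_le_mul_card_image
      intro w _
      exact mul_unif F μ hμ (fun κ hκ => (hρ κ hκ).2.2) hv ρ hks2 hvρ hvk hn2 w
    refine h4.trans (Nat.mul_le_mul_left _ ?_)
    unfold a
    apply Finset.card_le_card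
    intro w hw
    obtain ⟨W, hW, rfl⟩ := Finset.mem_image.1 hw
    obtain ⟨hW1, hW2, hW3⟩ := mem_VQ.1 hW
    rw [mem_K]
    refine ⟨?_, hW3.ext, Or.inl ?_⟩
    · rw [(e_bas T L0 B v hv W).2.2.1, hW1, ml, (hW2.map _).sum_eq]
    · exact sumu N _ _ (typ hv N (fun i _ => hvk i) W hW2 hW3) hl'
  have hE2 : (E : ℝ) ≤ C ^ N * N.factorial := by
    have h5 : E ≤ (2 ^ (F.card * (1 + m) * (2 * D)) * 36) ^ N * N.factorial := by
      have h6 : N + m ≤ (1 + m) * N := by nlinarith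
      have h7 : F.card * (N + m) * (2 * D) ≤ F.card * (1 + m) * (2 * D) * N :=
        calc F.card * (N + m) * (2 * D) ≤ F.card * ((1 + m) * N) * (2 * D) :=
              Nat.mul_le_mul_right _ (Nat.mul_le_mul_left _ h6)
          _ = F.card * (1 + m) * (2 * D) * N := by ring
      calc E = 2 ^ (F.card * (N + m) * (2 * D)) * (36 ^ N * N.factorial) := hE
        _ ≤ 2 ^ (F.card * (1 + m) * (2 * D) * N) * (36 ^ N * N.factorial) :=
            Nat.mul_le_mul_right _ (Nat.pow_le_pow_right (by norm_num) h7)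
        _ = (2 ^ (F.card * (1 + m) * (2 * D)) * 36) ^ N * N.factorial := by
            rw [mul_pow, pow_mul]; ring
    rw [hC]
    exact_mod_cast h5
  have h5 : ((VQ k T L0 v N n).card : ℝ) ≤
      C ^ N * N.factorial * (a (KT l) (n + ml T v N) : ℝ) := by
    have h6 : ((VQ k T L0 v N n).card : ℝ) ≤ (E : ℝ) * (a (KT l) (n + ml T v N) : ℝ) := by
      exact_mod_cast h3
    exact h6.trans (mul_le_mul_of_nonneg_right hE2 (Nat.cast_nonneg _))
  have h6 := h1.trans h5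
  have hf : (0 : ℝ) < N.factorial := by exact_mod_cast N.factorial_pos
  have e1 : (c / C * (n : ℝ) ^ (2 / 3 : ℝ)) ^ N / N.factorial * a (Ok k) n =
      ((c * (n : ℝ) ^ (2 / 3 : ℝ)) ^ N * a (Ok k) n) / (C ^ N * N.factorial) := by
    have e2 : c / C * (n : ℝ) ^ (2 / 3 : ℝ) = c * (n : ℝ) ^ (2 / 3 : ℝ) / C := by ring
    rw [e2, div_pow]
    field_simp
  rw [e1, div_le_iff₀ (by positivity)]
  calc (c * (n : ℝ) ^ (2 / 3 : ℝ)) ^ N * a (Ok k) n
      ≤ C ^ N * N.factorial * (a (KT l) (n + ml T v N) : ℝ) := h6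
    _ = (a (KT l) (n + ml T v N) : ℝ) * (C ^ N * N.factorial) := by ring

/-- many knots from a finite set -/
theorem main_g (k : List V) (F : Finset (List V))
    (hF : ∀ κ ∈ F, Fin1 k κ ∧ ∃ w, SAP w ∧ Same (vl w) κ) :
    ∃ (c : ℝ) (M n0 : ℕ), 0 < c ∧
    ∀ (ks : ℕ → List V) (N : ℕ), (∀ i < N, ks i ∈ F) → ∃ m : ℕ, Even m ∧ m ≤ M * N ∧
      ∀ n ≥ n0, (N : ℝ) ≤ c * (n : ℝ) ^ (2 / 3 : ℝ) → ∀ l : List V, SumQ k ks N l →
        (c * (n : ℝ) ^ (2 / 3 : ℝ)) ^ N / N.factorial * a (KT k) n ≤ a (KT l) (n + m) ∧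
        (c * (n : ℝ) ^ (2 / 3 : ℝ)) ^ N / N.factorial * pq (KT k) n ≤ pq (KT l) (n + m) := by
  obtain ⟨c, δ, M, n0, hc, hδ, H⟩ := main_f k F hF
  obtain ⟨c', hc'd⟩ : ∃ c' : ℝ, c' = min 1 (min δ (c / 4)) := ⟨_, rfl⟩
  have hc'0 : 0 < c' := by
    rw [hc'd]
    exact lt_min one_pos (lt_min hδ (by positivity))
  have hc'1 : c' ≤ 1 := by rw [hc'd]; exact min_le_left _ _
  have hc'2 : c' ≤ δ := by rw [hc'd]; exact (min_le_right _ _).trans (min_le_left _ _)
  have hc'3 : c' ≤ c / 4 := by rw [hc'd]; exact (min_le_right _ _).trans (min_le_right _ _)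
  -- `M * n ^ (2 / 3) ≤ n` for large `n`
  have hev : ∀ᶠ n : ℕ in atTop, (M : ℝ) * (n : ℝ) ^ (2 / 3 : ℝ) ≤ n := by
    have h1 : Tendsto (fun n : ℕ => (n : ℝ) ^ (-(1 / 3 : ℝ))) atTop (𝓝 0) := by
      have h2 : Tendsto (fun x : ℝ => x ^ (-(1 / 3 : ℝ))) atTop (𝓝 0) :=
        tendsto_rpow_neg_atTop (by norm_num)
      exact h2.comp tendsto_natCast_atTop_atTop
    have h3 := h1.const_mul (M : ℝ)
    rw [mul_zero] at h3
    filter_upwards [h3.eventually (gt_mem_nhds one_pos), eventually_gt_atTop 0] with n h4 hn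
    have hn' : (0 : ℝ) < n := by exact_mod_cast hn
    have e : (n : ℝ) ^ (2 / 3 : ℝ) = n * (n : ℝ) ^ (-(1 / 3 : ℝ)) := by
      nth_rewrite 2 [← Real.rpow_one (n : ℝ)]
      rw [← Real.rpow_add hn']
      norm_num
    rw [e]
    nlinarith
  obtain ⟨n1, hn1⟩ := eventually_atTop.1 hev
  refine ⟨c', M, max (max n0 n1) 1, hc'0, ?_⟩
  intro ks N hks
  obtain ⟨m, hm1, hm2, h3⟩ := H ks N hks
  refine ⟨m, Nat.even_iff.2 hm1, hm2, ?_⟩
  intro n hn hN l hl
  have hn0 : n0 ≤ n := (le_max_left _ _).trans ((le_max_left _ _).trans hn)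
  have hnn1 : n1 ≤ n := (le_max_right _ _).trans ((le_max_left _ _).trans hn)
  have hnp : 0 < n := (le_max_right _ _).trans hn
  have hn' : (0 : ℝ) < n := by exact_mod_cast hnp
  obtain ⟨x, hx⟩ : ∃ x : ℝ, x = (n : ℝ) ^ (2 / 3 : ℝ) := ⟨_, rfl⟩
  have hx0 : 0 < x := by rw [hx]; positivity
  rw [← hx] at hN ⊢
  have h4 := h3 n hn0 (by
    rw [← hx]
    exact hN.trans (mul_le_mul_of_nonneg_right hc'2 hx0.le)) l hl
  rw [← hx] at h4
  have hf : (0 : ℝ) < N.factorial := by exact_mod_cast N.factorial_pos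
  have hhalf : (a (KT k) n : ℝ) ≤ 2 * a (Ok k) n := by
    exact_mod_cast KQ.half S_rot_proof c_rev S_simple_proof k n
  have hmn : n + m ≤ 2 * n := by
    have h5 : (M : ℝ) * N ≤ n := by
      calc (M : ℝ) * N ≤ M * (c' * x) := mul_le_mul_of_nonneg_left hN (Nat.cast_nonneg _)
        _ ≤ M * x := by
            apply mul_le_mul_of_nonneg_left _ (Nat.cast_nonneg _)
            nlinarith
        _ ≤ n := by rw [hx]; exact hn1 n hnn1
    have h6 : M * N ≤ n := by exact_mod_cast h5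
    omega
  rcases Nat.eq_zero_or_pos N with rfl | hNp
  · -- no summands
    have hm0 : m = 0 := by simpa using hm2
    subst hm0
    have h7 : a (KT k) n ≤ a (KT l) n := by
      unfold a
      apply Finset.card_le_card
      intro w hw
      obtain ⟨h1, h2, h3⟩ := mem_K.1 hw
      refine mem_K.2 ⟨h1, h2, ?_⟩
      have hl2 : Same l k := hl
      rcases h3 with h3 | h3
      · exact Or.inl (h3.trans hl2.symm)
      · exact Or.inr (h3.trans ((c_rev _ _).2 hl2.symm))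
    have h8 : (a (KT k) n : ℝ) ≤ a (KT l) n := by exact_mod_cast h7
    refine ⟨by simpa using h8, ?_⟩
    unfold pq
    have h9 := div_le_div_of_nonneg_right h8 (show (0 : ℝ) ≤ 2 * n by positivity)
    simpa using h9
  have hpow : 4 * (c' * x) ^ N ≤ (c * x) ^ N := by
    have h7 : (4 * (c' * x)) ^ N ≤ (c * x) ^ N := by
      apply pow_le_pow_left₀ (by positivity)
      nlinarith
    have h8 : (4 : ℝ) ≤ 4 ^ N := by
      calc (4 : ℝ) = 4 ^ 1 := (pow_one _).symm
        _ ≤ 4 ^ N := pow_le_pow_right₀ (by norm_num) hNp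
    calc 4 * (c' * x) ^ N ≤ 4 ^ N * (c' * x) ^ N :=
          mul_le_mul_of_nonneg_right h8 (by positivity)
      _ = (4 * (c' * x)) ^ N := (mul_pow _ _ _).symm
      _ ≤ _ := h7
  have hOk : (0 : ℝ) ≤ a (Ok k) n := Nat.cast_nonneg _
  have key : (c' * x) ^ N / N.factorial * a (KT k) n ≤ (a (KT l) (n + m) : ℝ) / 2 := by
    calc (c' * x) ^ N / N.factorial * a (KT k) n
        ≤ (c' * x) ^ N / N.factorial * (2 * a (Ok k) n) :=
          mul_le_mul_of_nonneg_left hhalf (by positivity)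
      _ = (4 * (c' * x) ^ N) / N.factorial * a (Ok k) n / 2 := by ring
      _ ≤ ((c * x) ^ N / N.factorial * a (Ok k) n) / 2 := by
          apply div_le_div_of_nonneg_right _ (by norm_num)
          exact mul_le_mul_of_nonneg_right (div_le_div_of_nonneg_right hpow hf.le) hOk
      _ ≤ (a (KT l) (n + m) : ℝ) / 2 := div_le_div_of_nonneg_right h4 (by norm_num)
  have hKl : (0 : ℝ) ≤ a (KT l) (n + m) := Nat.cast_nonneg _
  refine ⟨by linarith, ?_⟩
  unfold pq
  have hmn' : ((n + m : ℕ) : ℝ) ≤ 2 * n := by exact_mod_cast hmn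
  have hnm0 : (0 : ℝ) < ((n + m : ℕ) : ℝ) := by
    have : 0 < n + m := by omega
    exact_mod_cast this
  rw [mul_div_assoc']
  calc (c' * x) ^ N / N.factorial * a (KT k) n / (2 * n)
      ≤ ((a (KT l) (n + m) : ℝ) / 2) / (2 * n) :=
        div_le_div_of_nonneg_right key (by positivity)
    _ = (a (KT l) (n + m) : ℝ) / (2 * (2 * n)) := by rw [div_div]
    _ ≤ (a (KT l) (n + m) : ℝ) / (2 * ((n + m : ℕ) : ℝ)) := by gcongr

end

end KNM
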